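import Mathlib

set_option autoImplicit false

namespace Pool.Agent.Results.MP_01622d_an.SnakeNotExtremal

open Polynomial Set

noncomputable def om : ℝ[X] :=
  C 5850 - C 793 * X - C 15565 * X ^ 2 + C 850 * X ^ 3 + C 10000 * X ^ 4

noncomputable def pp : ℝ[X] :=
  C (-7218) - C 2365 * X + C 15275 * X ^ 2 + C 2650 * X ^ 3 - C 8000 * X ^ 4

lemma om_eval (x : ℝ) :
    om.eval x = 5850 - 793 * x - 15565 * x ^ 2 + 850 * x ^ 3 + 10000 * x ^ 4 := by
  simp [om]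

lemma pp_eval (x : ℝ) :
    pp.eval x = -7218 - 2365 * x + 15275 * x ^ 2 + 2650 * x ^ 3 - 8000 * x ^ 4 := by
  simp [pp]

lemma om_der (x : ℝ) :
    (derivative om).eval x = -793 - 31130 * x + 2550 * x ^ 2 + 40000 * x ^ 3 := by
  simp [om]; ring

lemma pp_der (x : ℝ) :
    (derivative pp).eval x = -2365 + 30550 * x + 7950 * x ^ 2 - 32000 * x ^ 3 := by
  simp [pp]; ring

/-- There are `1 ≤ k ≤ n`, a continuous positive majorant `μ` on `[-1,1]`, its snake polynomial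
`ω` (degree `≤ n`, `|ω| ≤ μ`, alternation points `τ 0 > ⋯ > τ n`), and a polynomial `p` of degree
`≤ n` with `|p| ≤ μ` whose `k`-th derivative has a larger uniform norm than that of `ω`. -/
theorem result :
    ∃ (n k : ℕ) (μ : ℝ → ℝ) (ω p : ℝ[X]) (τ : Fin (n + 1) → ℝ),
      1 ≤ k ∧ k ≤ n ∧
      ContinuousOn μ (Icc (-1) 1) ∧ (∀ x ∈ Icc (-1 : ℝ) 1, 0 < μ x) ∧
      ω.natDegree ≤ n ∧ (∀ x ∈ Icc (-1 : ℝ) 1, |ω.eval x| ≤ μ x) ∧
      StrictAnti τ ∧ (∀ i, τ i ∈ Icc (-1 : ℝ) 1) ∧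
      (∀ i, ω.eval (τ i) = (-1) ^ (i : ℕ) * μ (τ i)) ∧
      p.natDegree ≤ n ∧ (∀ x ∈ Icc (-1 : ℝ) 1, |p.eval x| ≤ μ x) ∧
      ∃ M : ℝ, (∀ x ∈ Icc (-1 : ℝ) 1, |(derivative^[k] ω).eval x| ≤ M) ∧
        ∃ x₀ ∈ Icc (-1 : ℝ) 1, M < |(derivative^[k] p).eval x₀| := by
  refine ⟨4, 1, fun x => max (max |om.eval x| |pp.eval x|) 1, om, pp,
    ![1, 9 / 10, -8 / 10, -9 / 10, -1], le_rfl, by norm_num, ?_, ?_, ?_, ?_, ?_, ?_, ?_, ?_, ?_,
    11000, ?_, 13 / 20, ?_, ?_⟩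
  · exact (((om.continuous.abs).max (pp.continuous.abs)).max continuous_const).continuousOn
  · intro x _; exact lt_of_lt_of_le one_pos (le_max_right _ _)
  · unfold om; compute_degree
  · intro x _; exact (le_max_left _ _).trans (le_max_left _ _)
  · rw [Fin.strictAnti_iff_succ_lt]
    intro i; fin_cases i <;> simp <;> norm_num
  · intro i; fin_cases i <;> simp <;> norm_num
  · intro i
    fin_cases i <;> simp only [om_eval, pp_eval] <;> simp <;> norm_num [abs_of_pos, abs_of_neg]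
  · unfold pp; compute_degree
  · intro x _; exact (le_max_right _ _).trans (le_max_left _ _)
  · intro x hx
    obtain ⟨h1, h2⟩ := hx
    simp only [Function.iterate_one, om_der]
    rw [abs_le]
    constructor
    · nlinarith [mul_nonneg (sub_nonneg.mpr h1) (sq_nonneg (x - 1 / 2)),
        mul_nonneg (sub_nonneg.mpr h2) (sq_nonneg (x - 1 / 2)), sq_nonneg (x - 1 / 2)]
    · nlinarith [mul_nonneg (sub_nonneg.mpr h1) (sq_nonneg (x + 1 / 2)),
        mul_nonneg (sub_nonneg.mpr h2) (sq_nonneg (x + 1 / 2)), sq_nonneg (x + 1 / 2)]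
  · constructor <;> norm_num
  · simp only [Function.iterate_one, pp_der]
    norm_num [abs_of_pos]

end Pool.Agent.Results.MP_01622d_an.SnakeNotExtremal
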